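import Pool.Agent.BE01.StmtsS
import Pool.Agent.BE01.StmtsC

/-!
# Squad BE01, part S, module RDS: all the operators for radial functions
-/

namespace Pool.Agent.BE01.H5

open Set Filter Topology MeasureTheory
open scoped InnerProductSpace ENNReal ContDiff

noncomputable section

variable {d : ℕ} {r0 r1 : ℝ} {h : r0 ≤ r1}

theorem qq_pos (h0 : 0 < r0) (hs : 0 < sg d) {s : ℝ} (hs0 : r0 ≤ s) : 0 < qq d s := by
  unfold qq
  have : 0 < s := h0.trans_le hs0
  positivity

theorem qq_cont (h0 : 0 < r0) (hs : 0 < sg d) : ContinuousOn (qq d) (Icc r0 r1) := by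
  unfold qq
  apply ContinuousOn.div continuousOn_const
  · fun_prop
  · intro s hsm
    have : 0 < s := h0.trans_le hsm.1
    positivity

theorem inner_eq {A : Alg C(Ic r0 r1, ℝ) C(Ic r0 r1, ℝ) (Lp ℝ 2 (nu d h))}
    (hA : ∀ x, A.e x =ᵐ[nu d h] x) (x : C(Ic r0 r1, ℝ)) (k : Lp ℝ 2 (nu d h)) :
    ⟪A.e x, k⟫_ℝ = ∫ s, x s * k s ∂(nu d h) := by
  rw [MeasureTheory.L2.inner_def]
  apply integral_congr_ae
  filter_upwards [hA x] with s hs
  rw [hs]
  simp [mul_comm]

theorem ae_zero (hfin : IsFiniteMeasure (nu d h)) (hat : ∀ r, nu d h {r} = 0)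
    (k : Lp ℝ 2 (nu d h))
    (hk : ∀ (η η' : ℝ → ℝ), (∀ s, HasDerivAt η (η' s) s) → Continuous η' → η r0 = 0 →
      η r1 = 0 → ∫ s, k s * η s ∂(nu d h) = 0) : k = 0 := by
  have hemb : MeasurableEmbedding (Subtype.val : Ic r0 r1 → ℝ) :=
    MeasurableEmbedding.subtype_coe measurableSet_Icc
  have hint : Integrable (k : Ic r0 r1 → ℝ) (nu d h) :=
    (Lp.memLp k).integrable (by norm_num)
  set K : ℝ → ℝ := fun x => k (projIcc r0 r1 h x) with hK
  have hKv : K ∘ (Subtype.val : Ic r0 r1 → ℝ) = k := by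
    funext s
    simp only [hK, Function.comp_apply, projIcc_val]
  have hKint : Integrable K ((nu d h).map Subtype.val) := by
    rw [hemb.integrable_map_iff, hKv]
    exact hint
  have hz : ∀ᵐ x ∂((nu d h).map Subtype.val), x ∈ Ioo r0 r1 → K x = 0 := by
    apply isOpen_Ioo.ae_eq_zero_of_integral_contDiff_smul_eq_zero
    · exact hKint.locallyIntegrable.locallyIntegrableOn _
    · intro g hg hgc hgs
      rw [hemb.integral_map]
      have h1 := hk g (deriv g) (fun s => (hg.differentiable (by norm_num) s).hasDerivAt)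
        (hg.continuous_deriv (by exact_mod_cast le_top))
        (image_eq_zero_of_notMem_tsupport fun hh => (lt_irrefl _ (hgs hh).1))
        (image_eq_zero_of_notMem_tsupport fun hh => (lt_irrefl _ (hgs hh).2))
      rw [← h1]
      apply integral_congr_ae
      refine Eventually.of_forall fun s => ?_
      simp only [hK, projIcc_val, smul_eq_mul]
      ring
  rw [hemb.ae_map_iff] at hz
  have hne0 : ∀ᵐ s ∂(nu d h), s ≠ (⟨r0, ⟨le_rfl, h⟩⟩ : Ic r0 r1) := by
    rw [ae_iff]
    simp only [ne_eq, not_not, setOf_eq_eq_singleton]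
    exact hat _
  have hne1 : ∀ᵐ s ∂(nu d h), s ≠ (⟨r1, ⟨h, le_rfl⟩⟩ : Ic r0 r1) := by
    rw [ae_iff]
    simp only [ne_eq, not_not, setOf_eq_eq_singleton]
    exact hat _
  rw [Lp.eq_zero_iff_ae_eq_zero]
  filter_upwards [hz, hne0, hne1] with s h1 h2 h3
  have h4 : (s : ℝ) ∈ Ioo r0 r1 :=
    ⟨lt_of_le_of_ne s.2.1 fun hh => h2 (Subtype.ext hh.symm),
      lt_of_le_of_ne s.2.2 fun hh => h3 (Subtype.ext hh)⟩
  have h5 := h1 h4
  simp only [hK, projIcc_val] at h5
  exact h5

/-- the Cauchy-Schwarz inequality in the form needed -/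
theorem cs {q f : ℝ → ℝ} (hlt : r0 < r1) (hq : ContinuousOn q (Icc r0 r1))
    (hq0 : ∀ s ∈ Icc r0 r1, 0 < q s) (hf : ContinuousOn f (Icc r0 r1)) :
    (∫ s in r0..r1, q s * |f s|) ^ 2 ≤ (∫ s in r0..r1, q s) * ∫ s in r0..r1, q s * f s * f s := by
  have hu : uIcc r0 r1 = Icc r0 r1 := uIcc_of_le hlt.le
  have iq : IntervalIntegrable q volume r0 r1 := by
    apply ContinuousOn.intervalIntegrable; rw [hu]; exact hq
  have i1 : IntervalIntegrable (fun s => q s * |f s|) volume r0 r1 := by
    apply ContinuousOn.intervalIntegrable; rw [hu]; exact hq.mul hf.abs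
  have i2 : IntervalIntegrable (fun s => q s * f s * f s) volume r0 r1 := by
    apply ContinuousOn.intervalIntegrable; rw [hu]; exact (hq.mul hf).mul hf
  have hQ : 0 < ∫ s in r0..r1, q s := by
    apply intervalIntegral.intervalIntegral_pos_of_pos_on iq _ hlt
    intro s hs
    exact hq0 s ⟨hs.1.le, hs.2.le⟩
  set Q := ∫ s in r0..r1, q s
  set a := ∫ s in r0..r1, q s * |f s|
  have h1 : 0 ≤ ∫ s in r0..r1, q s * (|f s| - a / Q) ^ 2 := by
    apply intervalIntegral.integral_nonneg hlt.le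
    intro s hs
    exact mul_nonneg (hq0 s hs).le (sq_nonneg _)
  have h2 : (∫ s in r0..r1, q s * (|f s| - a / Q) ^ 2) =
      (∫ s in r0..r1, q s * f s * f s) - 2 * (a / Q) * a + (a / Q) ^ 2 * Q := by
    have e : ∀ s, q s * (|f s| - a / Q) ^ 2 =
        q s * f s * f s - 2 * (a / Q) * (q s * |f s|) + (a / Q) ^ 2 * q s := by
      intro s
      have := sq_abs (f s)
      linear_combination q s * this
    simp_rw [e]
    rw [intervalIntegral.integral_add (i2.sub (i1.const_mul _)) (iq.const_mul _),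
      intervalIntegral.integral_sub i2 (i1.const_mul _), intervalIntegral.integral_const_mul,
      intervalIntegral.integral_const_mul]
  rw [h2] at h1
  have h3 : (a / Q) ^ 2 * Q = a ^ 2 / Q := by field_simp
  have h4 : 2 * (a / Q) * a = 2 * (a ^ 2 / Q) := by field_simp
  rw [h3, h4] at h1
  have h5 : a ^ 2 / Q ≤ ∫ s in r0..r1, q s * f s * f s := by linarith
  rw [div_le_iff₀ hQ] at h5
  linarith

theorem rds (hpol : PolStmt) (hal1 : Al1Stmt) (hopr : OprStmt) (hwva : WvaStmt) (hhsc : HscStmt) :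
    RdsStmt := by
  intro d r0 r1 h hd h0 hlt
  obtain ⟨hsg, hfin, hopen, hat, hpolar⟩ := hpol d r0 r1 h hd h0 hlt
  obtain ⟨A, hA⟩ := hal1 r0 r1 (nu d h) hopen
  obtain ⟨D, SX, hO⟩ := hopr d r0 r1 h hd h0 hlt
  have hu : uIcc r0 r1 = Icc r0 r1 := uIcc_of_le hlt.le
  have hqc : ContinuousOn (qq d) (Icc r0 r1) := qq_cont h0 hsg
  have hq0 : ∀ s ∈ Icc r0 r1, 0 < qq d s := fun s hs => qq_pos h0 hsg hs.1
  have hin : ∀ k k' : Lp ℝ 2 (nu d h), ⟪A.e (SX k), k'⟫_ℝ =
      ∫ s in r0..r1, qq d s * flx k s * flx k' s := by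
    intro k k'
    rw [inner_eq hA, hO.symm]
  have hcomp : IsCompactOperator (A.e.comp SX) := by
    apply hhsc (Ic r0 r1) (nu d h) (A.e.comp SX) ‖SX‖ (by positivity)
    intro f
    filter_upwards [hA (SX f)] with z hz
    change |A.e (SX f) z| ≤ _
    rw [hz]
    exact ((SX f).norm_coe_le_norm z).trans (SX.le_opNorm f)
  obtain ⟨W, hW⟩ := hwva C(Ic r0 r1, ℝ) C(Ic r0 r1, ℝ) (Lp ℝ 2 (nu d h)) A SX
    (∫ s in r0..r1, qq d s) hcomp
    (by
      intro k k'
      rw [hin, real_inner_comm, hin]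
      apply intervalIntegral.integral_congr
      intro s _
      simp only
      ring)
    (by
      intro k hk
      rw [hin]
      have hc : ContinuousOn (fun s => qq d s * flx k s * flx k s) (Icc r0 r1) :=
        (hqc.mul (hO.flx_cont k)).mul (hO.flx_cont k)
      have hnn : ∀ s ∈ Icc r0 r1, 0 ≤ qq d s * flx k s * flx k s := by
        intro s hs
        rw [mul_assoc]
        exact mul_nonneg (hq0 s hs).le (mul_self_nonneg _)
      by_contra hcon
      apply hk
      have hz : ∀ s ∈ Icc r0 r1, flx k s = 0 := by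
        by_contra hne
        push Not at hne
        obtain ⟨s, hs, hsne⟩ := hne
        apply hcon
        refine intervalIntegral.integral_pos hlt hc (fun s hs => hnn s ⟨hs.1.le, hs.2⟩) ⟨s, hs, ?_⟩
        rw [mul_assoc]
        exact mul_pos (hq0 s hs) (mul_self_pos.2 hsne)
      apply ae_zero hfin hat
      intro η η' h1 h2 h3 h4
      rw [← hO.weak k η η' h1 h2 h3 h4]
      rw [← intervalIntegral.integral_zero (a := r0) (b := r1) (μ := volume)]
      apply intervalIntegral.integral_congr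
      intro s hs
      rw [hu] at hs
      simp only [hz s hs, zero_mul])
    (by
      intro k
      rw [hin]
      refine le_trans ?_ (cs hlt hqc hq0 (hO.flx_cont k))
      have i1 : IntervalIntegrable (fun s => qq d s * |flx k s|) volume r0 r1 := by
        apply ContinuousOn.intervalIntegrable; rw [hu]; exact hqc.mul (hO.flx_cont k).abs
      have hnn : 0 ≤ ∫ s in r0..r1, qq d s * |flx k s| := by
        apply intervalIntegral.integral_nonneg hlt.le
        intro s hs
        exact mul_nonneg (hq0 s hs).le (abs_nonneg _)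
      apply pow_le_pow_left₀ (norm_nonneg _)
      rw [ContinuousMap.norm_le _ hnn]
      intro r
      rw [hO.SX_eq, Real.norm_eq_abs]
      refine (intervalIntegral.abs_integral_le_integral_abs r.2.1).trans ?_
      have e : ∀ s ∈ uIcc r0 (r : ℝ), |qq d s * flx k s| = qq d s * |flx k s| := by
        intro s hs
        rw [uIcc_of_le r.2.1] at hs
        rw [abs_mul, abs_of_pos (hq0 s ⟨hs.1, hs.2.trans r.2.2⟩)]
      rw [intervalIntegral.integral_congr e]
      apply intervalIntegral.integral_mono_interval le_rfl r.2.1 r.2.2 _ i1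
      rw [Filter.EventuallyLE, ae_restrict_iff' measurableSet_Ioc]
      refine Eventually.of_forall fun s hs => ?_
      exact mul_nonneg (hq0 s ⟨hs.1.le, hs.2⟩).le (abs_nonneg _))
  refine ⟨A, W, D, hA, ?_, ?_⟩
  · rw [hW]; exact hO
  · have : W.S = A.e.comp SX := by
      ext1 k
      rw [← W.e_SX, hW]
      rfl
    rw [this]
    exact hcomp

end

end Pool.Agent.BE01.H5
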